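import Pool.Agent.Helper40.Nm.Goals

/-!
Packet GEN: generic constancy of the valuation of a function.
-/

open CategoryTheory AlgebraicGeometry Limits TensorProduct

namespace Pool.Agent.Helper73.Nm

open Pool.Agent.Helper40.Nm

/-- elements of `C ⊗ M` become elements of `C` after multiplication with a power of `ϖ` -/
theorem exists_pow_mul {R M C : Type} [CommRing R] [IsDomain R] [IsDiscreteValuationRing R]
    [Field M] [Algebra R M] [IsFractionRing R M] [CommRing C] [Algebra R C] (ϖ : R)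
    (hϖ : Irreducible ϖ) (d : C ⊗[R] M) :
    ∃ (n : ℕ) (c : C), d * (1 ⊗ₜ[R] (algebraMap R M ϖ ^ n)) = c ⊗ₜ[R] 1 := by
  have key : ∀ m : M, ∃ (n : ℕ) (r : R), m * algebraMap R M ϖ ^ n = algebraMap R M r := by
    intro m
    obtain ⟨a, b, hb, rfl⟩ := IsFractionRing.div_surjective (A := R) m
    have hb0 : b ≠ 0 := nonZeroDivisors.ne_zero hb
    obtain ⟨n, u, hu⟩ := IsDiscreteValuationRing.eq_unit_mul_pow_irreducible hb0 hϖ
    refine ⟨n, a * ((u⁻¹ : Rˣ) : R), ?_⟩
    have hbM : algebraMap R M b ≠ 0 := by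
      intro h
      exact hb0 ((IsFractionRing.injective R M) (by rw [h, map_zero]))
    have huM : algebraMap R M (u : R) * algebraMap R M ((u⁻¹ : Rˣ) : R) = 1 := by
      rw [← map_mul, Units.mul_inv, map_one]
    rw [div_mul_eq_mul_div, div_eq_iff hbM, hu, map_mul, map_mul, map_pow]
    calc algebraMap R M a * algebraMap R M ϖ ^ n
        = algebraMap R M a * algebraMap R M ϖ ^ n *
          (algebraMap R M (u : R) * algebraMap R M ((u⁻¹ : Rˣ) : R)) := by rw [huM, mul_one]
      _ = _ := by ring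
  induction d using TensorProduct.induction_on with
  | zero => exact ⟨0, 0, by simp⟩
  | tmul c m =>
    obtain ⟨n, r, hr⟩ := key m
    refine ⟨n, r • c, ?_⟩
    rw [Algebra.TensorProduct.tmul_mul_tmul, mul_one, hr, Algebra.algebraMap_eq_smul_one,
      TensorProduct.tmul_smul, TensorProduct.smul_tmul']
  | add x y hx hy =>
    obtain ⟨n, c, hc⟩ := hx
    obtain ⟨n', c', hc'⟩ := hy
    have hpow : ∀ a b : ℕ, (1 : C) ⊗ₜ[R] (algebraMap R M ϖ ^ (a + b)) =
        (1 ⊗ₜ[R] (algebraMap R M ϖ ^ a)) * (1 ⊗ₜ[R] (algebraMap R M ϖ ^ b)) := by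
      intro a b
      rw [Algebra.TensorProduct.tmul_mul_tmul, pow_add, mul_one]
    have hc2 : ∀ (a : ℕ), (1 : C) ⊗ₜ[R] (algebraMap R M ϖ ^ a) =
        ((algebraMap R C ϖ) ^ a) ⊗ₜ[R] (1 : M) := by
      intro a
      rw [← map_pow, ← map_pow, Algebra.algebraMap_eq_smul_one, Algebra.algebraMap_eq_smul_one,
        TensorProduct.tmul_smul, TensorProduct.smul_tmul']
    refine ⟨n + n', c * algebraMap R C ϖ ^ n' + c' * algebraMap R C ϖ ^ n, ?_⟩
    rw [add_mul, hpow, ← mul_assoc, hc, mul_comm (1 ⊗ₜ[R] _), ← mul_assoc, hc', hc2, hc2,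
      Algebra.TensorProduct.tmul_mul_tmul, Algebra.TensorProduct.tmul_mul_tmul, mul_one,
      TensorProduct.add_tmul]

theorem core (hA : GENA) {R M B C : Type} [CommRing R] [IsDomain R] [IsDiscreteValuationRing R]
    [IsAlgClosed (IsLocalRing.ResidueField R)]
    [Field M] [Algebra R M] [IsFractionRing R M] [CommRing B] [IsDomain B] [HopfAlgebra M B]
    (𝒢 : NeronLftModel R M B) (h : B) (ϖ : R) (hh : h ≠ 0) (hϖ : Irreducible ϖ)
    [CommRing C] [Algebra R C] [Algebra.Smooth R C]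
    (ι : Spec (CommRingCat.of C) ⟶ 𝒢.G.left) [IsOpenImmersion ι]
    (hι : ι ≫ 𝒢.G.hom = Spec.map (CommRingCat.ofHom (algebraMap R C)))
    (hC : Nontrivial C) (hunit : ¬ IsUnit (algebraMap R C ϖ)) :
    ∃ V : 𝒢.G.left.Opens, ((V : Set 𝒢.G.left) ∩ specialFibre 𝒢.G).Nonempty ∧
      ∃ m : ℤ, ∀ (t : B →ₐ[M] M) (s : specOver (RingHom.id R) ⟶ 𝒢.G), Lifts 𝒢 t s → cpt s ∈ V →
        ∃ u : Rˣ, t h = algebraMap R M u * algebraMap R M ϖ ^ m := by
  have hinjM : Function.Injective (algebraMap R M) := IsFractionRing.injective R M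
  have hinj : Function.Injective (Algebra.TensorProduct.includeLeft : C →ₐ[R] C ⊗[R] M) :=
    Algebra.TensorProduct.includeLeft_injective (S := R) hinjM
  have hnt : Nontrivial (C ⊗[R] M) := hinj.nontrivial
  have hpb := isPullback_SpecMap_of_isPushout _ _ _ _ (CommRingCat.isPushout_tensorProduct R C M)
  have hpb' : IsPullback
      (Spec.map (CommRingCat.ofHom (Algebra.TensorProduct.includeLeftRingHom (R := R) (A := C)
        (B := M))))
      (Spec.map (CommRingCat.ofHom (Algebra.TensorProduct.includeRight (R := R) (A := C)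
        (B := M)).toRingHom)) (ι ≫ 𝒢.G.hom)
      (Spec.map (CommRingCat.ofHom (algebraMap R M))) := by
    rw [hι]; exact hpb
  have hsq := IsPullback.of_bot' hpb' 𝒢.isPullback
  set k := 𝒢.isPullback.lift (Spec.map (CommRingCat.ofHom
    (Algebra.TensorProduct.includeLeftRingHom (R := R) (A := C) (B := M))) ≫ ι)
    (Spec.map (CommRingCat.ofHom (Algebra.TensorProduct.includeRight (R := R) (A := C)
        (B := M)).toRingHom)) (by rw [Category.assoc, hpb'.w]) with hk
  have hko : IsOpenImmersion k := MorphismProperty.of_isPullback hsq inferInstance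
  have hnB : Nonempty (Spec (CommRingCat.of (C ⊗[R] M))) :=
    inferInstanceAs (Nonempty (PrimeSpectrum (C ⊗[R] M)))
  have hiB : IsIntegral (Spec (CommRingCat.of B)) :=
    (affine_isIntegral_iff (CommRingCat.of B)).2 (inferInstanceAs (IsDomain B))
  have hiD : IsIntegral (Spec (CommRingCat.of (C ⊗[R] M))) := isIntegral_of_isOpenImmersion k
  have hdD : IsDomain (C ⊗[R] M) := (affine_isIntegral_iff (CommRingCat.of (C ⊗[R] M))).1 hiD
  have hdC : IsDomain C := hinj.isDomain (Algebra.TensorProduct.includeLeft : C →ₐ[R] C ⊗[R] M)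
  set φ : B →+* C ⊗[R] M := (Spec.preimage k).hom with hφ
  have hφk : Spec.map (CommRingCat.ofHom φ) = k := Spec.map_preimage k
  have hφinj : Function.Injective φ := by
    have hir : IrreducibleSpace (PrimeSpectrum B) := inferInstance
    have hop : IsOpen (Set.range (PrimeSpectrum.comap φ)) := by
      have h1 := k.isOpenEmbedding.isOpen_range
      rw [← hφk] at h1
      exact h1
    have hd : DenseRange (PrimeSpectrum.comap φ) :=
      hop.dense (Set.range_nonempty _)
    have h2 := (PrimeSpectrum.denseRange_comap_iff_ker_le_nilRadical φ).1 hd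
    rw [nilradical_eq_zero] at h2
    rw [RingHom.injective_iff_ker_eq_bot]
    exact le_bot_iff.1 h2
  obtain ⟨n, F0, hF0⟩ := exists_pow_mul (C := C) ϖ hϖ (φ h)
  have hϖM : algebraMap R M ϖ ≠ 0 := fun h0 => hϖ.ne_zero (hinjM (by rw [h0, map_zero]))
  have hF00 : F0 ≠ 0 := by
    rintro rfl
    rw [TensorProduct.zero_tmul, mul_eq_zero] at hF0
    rcases hF0 with h1 | h1
    · exact hh (hφinj (by rw [h1, map_zero]))
    · have h2 : (1 : C) ⊗ₜ[R] (algebraMap R M ϖ ^ n) * (1 ⊗ₜ[R] (algebraMap R M ϖ ^ n)⁻¹) = 1 := by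
        rw [Algebra.TensorProduct.tmul_mul_tmul, mul_one, mul_inv_cancel₀ (pow_ne_zero _ hϖM)]
        rfl
      rw [h1, zero_mul] at h2
      exact zero_ne_one h2
  obtain ⟨m1, F, hF, 𝔭, h𝔭, hϖ𝔭, hF𝔭⟩ := hA R C ϖ F0 hϖ hunit hF00
  let W : (Spec (CommRingCat.of C)).Opens := PrimeSpectrum.basicOpen F
  have hcomap : Spec.map (CommRingCat.ofHom (algebraMap R C)) ⟨𝔭, h𝔭⟩ =
      IsLocalRing.closedPoint R := by
    apply PrimeSpectrum.ext
    show Ideal.comap (algebraMap R C) 𝔭 = IsLocalRing.maximalIdeal R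
    symm
    apply (IsLocalRing.maximalIdeal.isMaximal R).eq_of_le
    · exact (Ideal.IsPrime.comap (algebraMap R C)).ne_top
    · rw [(IsDiscreteValuationRing.irreducible_iff_uniformizer ϖ).1 hϖ,
        Ideal.span_singleton_le_iff_mem, Ideal.mem_comap]
      exact hϖ𝔭
  refine ⟨ι ''ᵁ W, ⟨ι ⟨𝔭, h𝔭⟩, ?_, ?_⟩, (m1 : ℤ) - n, ?_⟩
  · exact ⟨⟨𝔭, h𝔭⟩, hF𝔭, rfl⟩
  · show 𝒢.G.hom (ι ⟨𝔭, h𝔭⟩) = IsLocalRing.closedPoint R
    rw [← hcomap, ← hι]
    rfl
  · intro t s hts hsV
    have hrange : Set.range s.left ⊆ Set.range ι := by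
      let U : TopologicalSpace.Opens (PrimeSpectrum R) :=
        ⟨s.left ⁻¹' Set.range ι, ι.isOpenEmbedding.isOpen_range.preimage s.left.continuous⟩
      have hU : IsLocalRing.closedPoint R ∈ U := by
        obtain ⟨w, -, hw⟩ := hsV
        exact ⟨w, hw⟩
      have hU2 := IsLocalRing.closed_point_mem_iff.1 hU
      rintro _ ⟨x, rfl⟩
      have hx : x ∈ U := by rw [hU2]; trivial
      exact hx
    set l := IsOpenImmersion.lift ι s.left hrange with hl
    have hlι : l ≫ ι = s.left := IsOpenImmersion.lift_fac ι s.left hrange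
    set σ : C →+* R := (Spec.preimage l).hom with hσ
    have hσl : Spec.map (CommRingCat.ofHom σ) = l := Spec.map_preimage l
    have hσR' : CommRingCat.ofHom (algebraMap R C) ≫ CommRingCat.ofHom σ =
        CommRingCat.ofHom (RingHom.id R) := by
      apply Spec.map_injective
      rw [Spec.map_comp, hσl, ← hι, ← Category.assoc, hlι]
      exact Over.w s
    have hσR : ∀ r : R, σ (algebraMap R C r) = r := fun r => by
      have h1 := congrArg (fun f => f.hom r) hσR'
      exact h1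
    have hσF : IsUnit (σ F) := by
      obtain ⟨w, hwW, hw⟩ := hsV
      have h1 : ι (l (IsLocalRing.closedPoint R)) = cpt s := by
        unfold cpt
        rw [← hlι]
        rfl
      have h2 : w = l (IsLocalRing.closedPoint R) := ι.isOpenEmbedding.injective (hw.trans h1.symm)
      rw [h2, ← hσl] at hwW
      have h3 : σ F ∉ IsLocalRing.maximalIdeal R := hwW
      exact IsLocalRing.notMem_maximalIdeal.1 h3
    let σa : C →ₐ[R] M := AlgHom.mk ((algebraMap R M).comp σ) (fun r => by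
      show algebraMap R M (σ (algebraMap R C r)) = _
      rw [hσR])
    let τ : C ⊗[R] M →ₐ[R] M := Algebra.TensorProduct.lift σa (AlgHom.id R M)
      (fun _ _ => Commute.all _ _)
    have hkey : Spec.map (CommRingCat.ofHom τ.toRingHom) ≫ k =
        Spec.map (CommRingCat.ofHom t.toRingHom) := by
      apply 𝒢.isPullback.hom_ext
      · rw [Category.assoc, hk, IsPullback.lift_fst, ← Category.assoc, ← Spec.map_comp]
        have h1 : CommRingCat.ofHom (Algebra.TensorProduct.includeLeftRingHom (R := R) (A := C)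
            (B := M)) ≫ CommRingCat.ofHom τ.toRingHom =
            CommRingCat.ofHom σ ≫ CommRingCat.ofHom (algebraMap R M) := by
          ext c
          show τ (c ⊗ₜ 1) = algebraMap R M (σ c)
          simp [τ, σa]
        rw [h1, Spec.map_comp, hσl, Category.assoc, hlι]
        exact hts
      · rw [Category.assoc, hk, IsPullback.lift_snd, ← Spec.map_comp, ← Spec.map_comp]
        congr 1
        ext c
        show τ (1 ⊗ₜ c) = t (algebraMap M B c)
        simp [τ]
    have hτt' : CommRingCat.ofHom φ ≫ CommRingCat.ofHom τ.toRingHom =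
        CommRingCat.ofHom t.toRingHom := by
      apply Spec.map_injective
      rw [Spec.map_comp, hφk, hkey]
    have hτt : ∀ b : B, t b = τ (φ b) := fun b => by
      have h1 := congrArg (fun f => f.hom b) hτt'
      exact h1.symm
    obtain ⟨u, hu⟩ := hσF
    refine ⟨u, ?_⟩
    have e1 : t h * algebraMap R M ϖ ^ n = algebraMap R M (σ F0) := by
      have h1 : τ (1 ⊗ₜ[R] (algebraMap R M ϖ ^ n)) = algebraMap R M ϖ ^ n := by
        simp [τ]
      have h2 : τ (F0 ⊗ₜ[R] 1) = algebraMap R M (σ F0) := by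
        simp [τ, σa]
      rw [hτt, ← h2, ← hF0, map_mul, h1]
    have e2 : σ F0 = ϖ ^ m1 * σ F := by
      rw [hF, map_mul, map_pow, hσR]
    rw [e2, ← hu, map_mul, map_pow] at e1
    rw [zpow_sub₀ hϖM, zpow_natCast, zpow_natCast, ← mul_div_assoc, eq_div_iff (pow_ne_zero _ hϖM), e1]
    ring

theorem gen : GENA → SEC → GEN := by
  intro hA hS R M B _ _ _ _ _ _ _ _ _ _ _ 𝒢 h ϖ hh hϖ
  obtain ⟨s0, hs0, -⟩ := (hS R M B 𝒢).1 (Bialgebra.counitAlgHom M B)
  have hx : 𝒢.G.hom (cpt s0) = IsLocalRing.closedPoint R := by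
    have h1 : 𝒢.G.hom (s0.left (IsLocalRing.closedPoint R)) =
        (s0.left ≫ 𝒢.G.hom) (IsLocalRing.closedPoint R) := rfl
    unfold cpt
    rw [h1, Over.w s0]
    show Spec.map (CommRingCat.ofHom (RingHom.id R)) _ = _
    have h2 : Spec.map (CommRingCat.ofHom (RingHom.id R)) = 𝟙 (Spec (CommRingCat.of R)) :=
      Spec.map_id _
    rw [h2]
    rfl
  obtain ⟨U, hU, hxU, -⟩ := exists_isAffineOpen_mem_and_subset (X := 𝒢.G.left) (x := cpt s0)
    (U := ⊤) trivial
  have hsm : Smooth 𝒢.G.hom := 𝒢.smooth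
  let f : CommRingCat.of R ⟶ Γ(𝒢.G.left, U) := Spec.preimage (hU.fromSpec ≫ 𝒢.G.hom)
  have hf : Spec.map f = hU.fromSpec ≫ 𝒢.G.hom := Spec.map_preimage _
  let _ : Algebra R Γ(𝒢.G.left, U) := f.hom.toAlgebra
  have hsmf : f.hom.Smooth := by
    rw [← HasRingHomProperty.Spec_iff (P := @Smooth), hf]
    infer_instance
  have : Algebra.Smooth R Γ(𝒢.G.left, U) := hsmf
  have hy : cpt s0 ∈ Set.range hU.fromSpec := by
    rw [hU.range_fromSpec]; exact hxU
  obtain ⟨y, hy⟩ := hy
  have hmem : algebraMap R Γ(𝒢.G.left, U) ϖ ∈ y.asIdeal := by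
    have h1 : Spec.map f y = IsLocalRing.closedPoint R := by
      rw [hf, ← hx, ← hy]
      rfl
    have h2 : ϖ ∈ (Spec.map f y).asIdeal := by
      rw [h1]
      exact hϖ.not_isUnit
    exact h2
  have hne : y.asIdeal ≠ ⊤ := y.isPrime.ne_top
  have hnt : Nontrivial Γ(𝒢.G.left, U) := by
    by_contra hcon
    rw [not_nontrivial_iff_subsingleton] at hcon
    exact hne (Subsingleton.elim _ _)
  exact core hA 𝒢 h ϖ hh hϖ (C := Γ(𝒢.G.left, U)) hU.fromSpec hf.symm hnt
    (fun hu => hne (Ideal.eq_top_of_isUnit_mem _ hmem hu))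

end Pool.Agent.Helper73.Nm
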